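import Pool.Agent.Lib.MP_7fc3ed_lc.Win
import Pool.Agent.Lib.MP_7fc3ed_lc.Bounded
import Pool.Agent.Lib.MP_7fc3ed_lc.NotRed

/-!
# An almost p-m-complete set for `E` which is not almost p-m-complete for `EXP`
-/

namespace Pool.Agent.Results.MP_7fc3ed_lc.Disproof

open Pool.Agent.Lib.MP_7fc3ed_lc

/-- The answer to Q1 is negative: some set `A` that is almost p-m-complete for `E` has a lower
p-m-span that does not have measure `1` in `EXP`. -/
theorem result : ∃ A : Lang, AlmostCompleteE A ∧ ¬ MeasureZeroEXP (lowerSpan A)ᶜ := by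
  refine ⟨A, almostCompleteE_A, ?_⟩
  rintro ⟨s, hs, hcomp, hsucc⟩
  obtain ⟨j, hj⟩ := exists_j hcomp
  obtain ⟨K, hK⟩ := capital_bounded hs hj
  obtain ⟨n, -, hn⟩ := hsucc (D j) ⟨D_not_reduces j, D_mem j⟩ K 0
  exact absurd (hK n) (not_le.2 hn)

end Pool.Agent.Results.MP_7fc3ed_lc.Disproof
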